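import Pool.Agent.Helper13.RG.Stmts

/-!
# AUT: an automorphism trivial on the fixed field of a section and on the algebraic elements
is trivial
-/

set_option autoImplicit false

namespace Pool.Agent.Helper13.RG

open Pool.Agent.Helper14.BSC Pool.Agent.Helper13.ZL Polynomial

/-- an automorphism trivial on the fixed field maps every element into its orbit -/
theorem aut_orbit {k Ω : Type} [Field k] [Field Ω] [Algebra k Ω] (D : Sec k Ω)
    (τ : Ω ≃ₐ[k] Ω) (hτ : ∀ x : LL D, τ (x : Ω) = x) (z : Ω) (F : Finset Ω)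
    (hF : ∀ y, y ∈ F ↔ ∃ g : GG k Ω, D.s g z = y) : τ z ∈ F := by
  classical
  have hmap : ∀ g : GG k Ω, (∏ w ∈ F, (X - C w)).map ((D.s g : Ω ≃ₐ[k] Ω) : Ω →+* Ω) =
      ∏ w ∈ F, (X - C w) := by
    intro g
    have him : F.image (fun w => D.s g w) = F := by
      refine Finset.eq_of_subset_of_card_le ?_ ?_
      · intro y hy
        rw [Finset.mem_image] at hy
        obtain ⟨w, hw, rfl⟩ := hy
        obtain ⟨h, rfl⟩ := (hF w).1 hw
        refine (hF _).2 ⟨g * h, ?_⟩
        rw [map_mul, AlgEquiv.mul_apply]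
      · rw [Finset.card_image_of_injective _ (D.s g).injective]
    rw [Polynomial.map_prod]
    calc ∏ w ∈ F, (X - C w).map ((D.s g : Ω ≃ₐ[k] Ω) : Ω →+* Ω)
        = ∏ w ∈ F, (X - C (D.s g w)) := by
          refine Finset.prod_congr rfl ?_
          intro w _
          rw [Polynomial.map_sub, Polynomial.map_X, Polynomial.map_C]
          rfl
      _ = ∏ w ∈ F.image (fun w => D.s g w), (X - C w) := by
          rw [Finset.prod_image]
          intro a _ b _ hab
          exact (D.s g).injective hab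
      _ = ∏ w ∈ F, (X - C w) := by rw [him]
  have hcoef : ∀ n : ℕ, (∏ w ∈ F, (X - C w)).coeff n ∈ LL D := by
    intro n
    refine mem_NN.2 ?_
    intro g _
    have h1 := congrArg (fun Q : Polynomial Ω => Q.coeff n) (hmap g)
    simp only [Polynomial.coeff_map] at h1
    exact h1
  have hmapτ : (∏ w ∈ F, (X - C w)).map (τ : Ω →+* Ω) = ∏ w ∈ F, (X - C w) := by
    refine Polynomial.ext ?_
    intro n
    rw [Polynomial.coeff_map]
    exact hτ ⟨_, hcoef n⟩
  have hz : z ∈ F := (hF z).2 ⟨1, by rw [map_one]; rfl⟩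
  have h0 : (∏ w ∈ F, (X - C w)).eval z = 0 := by
    rw [Polynomial.eval_prod]
    refine Finset.prod_eq_zero hz ?_
    rw [Polynomial.eval_sub, Polynomial.eval_X, Polynomial.eval_C, sub_self]
  have h1 : (∏ w ∈ F, (X - C w)).eval (τ z) = 0 := by
    have h2 : ((∏ w ∈ F, (X - C w)).map (τ : Ω →+* Ω)).eval ((τ : Ω →+* Ω) z) =
        (τ : Ω →+* Ω) ((∏ w ∈ F, (X - C w)).eval z) := Polynomial.eval_map_apply _ _
    rw [hmapτ, h0, map_zero] at h2
    exact h2
  rw [Polynomial.eval_prod, Finset.prod_eq_zero_iff] at h1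
  obtain ⟨w, hw, hw0⟩ := h1
  rw [Polynomial.eval_sub, Polynomial.eval_X, Polynomial.eval_C, sub_eq_zero] at hw0
  rw [hw0]
  exact hw

/-- a primitive element for a finite set of algebraic elements -/
theorem aut_prim {k A : Type} [Field k] [Field A] [Algebra k A] [CharZero k]
    (halg : ∀ a : A, IsIntegral k a) (E : Finset A) :
    ∃ θ : A, ∀ g : A ≃ₐ[k] A, g θ = θ → ∀ a ∈ E, g a = a := by
  have hfd : FiniteDimensional k (IntermediateField.adjoin k (E : Set A)) :=
    IntermediateField.finiteDimensional_adjoin (fun a _ => halg a)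
  obtain ⟨θ, hθ⟩ := Field.exists_primitive_element k (IntermediateField.adjoin k (E : Set A))
  refine ⟨(θ : A), ?_⟩
  intro g hg a ha
  have ha' : a ∈ IntermediateField.adjoin k (E : Set A) :=
    IntermediateField.subset_adjoin k (E : Set A) ha
  have key : ∀ x : IntermediateField.adjoin k (E : Set A),
      x ∈ IntermediateField.adjoin k {θ} → g (x : A) = (x : A) := by
    intro x hx
    induction hx using IntermediateField.adjoin_induction with
    | mem x hx =>
      rw [Set.mem_singleton_iff] at hx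
      rw [hx]
      exact hg
    | algebraMap c => exact g.commutes c
    | add x y _ _ h1 h2 =>
      rw [IntermediateField.coe_add, map_add, h1, h2]
    | inv x _ h1 =>
      rw [IntermediateField.coe_inv, map_inv₀, h1]
    | mul x y _ _ h1 h2 =>
      rw [IntermediateField.coe_mul, map_mul, h1, h2]
  exact key ⟨a, ha'⟩ (by rw [hθ]; exact IntermediateField.mem_top)

theorem st_AUT (hORB : ST_ORB) : ST_AUT := by
  classical
  intro k Ω _ _ _ _ _ D τ hτ hA
  refine AlgEquiv.ext ?_
  intro y
  show τ y = y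
  obtain ⟨E, hE⟩ := D.fin y
  have halg : ∀ a : Acl k Ω, IsIntegral k a := by
    intro a
    exact Algebra.IsIntegral.isIntegral a
  obtain ⟨θ, hθ⟩ := aut_prim halg E
  obtain ⟨Fy, hFy, _⟩ := hORB k Ω D y
  obtain ⟨Fθ, hFθ, _⟩ := hORB k Ω D (θ : Ω)
  -- a good constant
  obtain ⟨c, hc⟩ : ∃ c : k, algebraMap k Ω c ∉
      (Fy ×ˢ Fθ).image (fun q => (q.1 - τ y) / ((θ : Ω) - q.2)) := by
    by_contra hcon
    push Not at hcon
    have hinj : Function.Injective (algebraMap k Ω) := (algebraMap k Ω).injective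
    have : Set.Infinite (Set.range (algebraMap k Ω)) := by
      have : Infinite k := inferInstance
      exact Set.infinite_range_of_injective hinj
    refine this (Set.Finite.subset (Finset.finite_toSet
      ((Fy ×ˢ Fθ).image (fun q => (q.1 - τ y) / ((θ : Ω) - q.2)))) ?_)
    rintro _ ⟨c, rfl⟩
    exact hcon c
  obtain ⟨F, hF, _⟩ := hORB k Ω D (y + algebraMap k Ω c * (θ : Ω))
  obtain ⟨g, hg⟩ := (hF _).1 (aut_orbit D τ hτ _ F hF)
  rw [map_add, map_mul, map_add, map_mul, AlgEquiv.commutes, AlgEquiv.commutes, hA θ] at hg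
  -- `g` fixes `θ`
  have hgθ : D.s g (θ : Ω) = θ := by
    by_contra hne
    apply hc
    rw [Finset.mem_image]
    refine ⟨(D.s g y, D.s g (θ : Ω)), ?_, ?_⟩
    · rw [Finset.mem_product]
      exact ⟨(hFy _).2 ⟨g, rfl⟩, (hFθ _).2 ⟨g, rfl⟩⟩
    · have h1 : (θ : Ω) - D.s g (θ : Ω) ≠ 0 := fun h => hne (sub_eq_zero.1 h).symm
      show (D.s g y - τ y) / ((θ : Ω) - D.s g (θ : Ω)) = algebraMap k Ω c
      rw [div_eq_iff h1]
      linear_combination hg
  have hgθ' : g θ = θ := by
    rw [D.ext g θ] at hgθ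
    exact Subtype.ext hgθ
  have hy : D.s g y = y := hE g (hθ g hgθ')
  rw [hgθ, hy] at hg
  exact (add_right_cancel hg).symm

end Pool.Agent.Helper13.RG
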