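import Pool.Agent.Helper13.RG.Stmts

/-!
# EQB: equal classes modulo most primes give equal values
-/

set_option autoImplicit false

open scoped Classical

namespace Pool.Agent.Helper13.RG

open Pool.Agent.Helper14.BSC Pool.Agent.Helper13.ZL

/-- infinitely many primes lie outside two summable sets -/
theorem eqb_primes (L₁ L₂ : Set ℕ) (h₁ : Summable (fun ℓ : L₁ => 1 / ((ℓ : ℕ) : ℝ)))
    (h₂ : Summable (fun ℓ : L₂ => 1 / ((ℓ : ℕ) : ℝ))) (B : ℕ) :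
    ∃ ℓ : ℕ, B < ℓ ∧ ℓ.Prime ∧ ℓ ∉ L₁ ∧ ℓ ∉ L₂ := by
  by_contra hcon
  push Not at hcon
  apply not_summable_one_div_on_primes
  have e1 : Summable (L₁.indicator (fun n : ℕ => 1 / (n : ℝ))) :=
    (summable_subtype_iff_indicator (f := fun n : ℕ => 1 / (n : ℝ)) (s := L₁)).1 h₁
  have e2 : Summable (L₂.indicator (fun n : ℕ => 1 / (n : ℝ))) :=
    (summable_subtype_iff_indicator (f := fun n : ℕ => 1 / (n : ℝ)) (s := L₂)).1 h₂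
  have e3 : Summable ((Set.Iic B).indicator (fun n : ℕ => 1 / (n : ℝ))) :=
    (summable_subtype_iff_indicator (f := fun n : ℕ => 1 / (n : ℝ)) (s := Set.Iic B)).1
      ((Set.finite_Iic B).summable _)
  have hnn : ∀ n : ℕ, (0 : ℝ) ≤ 1 / (n : ℝ) := fun n => by positivity
  have hI : ∀ (S : Set ℕ) (n : ℕ), 0 ≤ S.indicator (fun n : ℕ => 1 / (n : ℝ)) n :=
    fun S n => Set.indicator_nonneg (fun n _ => hnn n) n
  refine Summable.of_nonneg_of_le (fun n => hI _ n) ?_ ((e1.add e2).add e3)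
  intro n
  by_cases hp : n ∈ {p : ℕ | p.Prime}
  · rw [Set.indicator_of_mem hp]
    have hp' : n.Prime := hp
    rcases Nat.lt_or_ge B n with hB | hB
    · rcases Classical.em (n ∈ L₁) with h | h
      · have h3 := Set.indicator_of_mem h (fun n : ℕ => 1 / (n : ℝ))
        have h4 := hI L₂ n
        have h5 := hI (Set.Iic B) n
        rw [h3]
        linarith
      · have h6 := hcon n hB hp' h
        have h3 := Set.indicator_of_mem h6 (fun n : ℕ => 1 / (n : ℝ))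
        have h4 := hI L₁ n
        have h5 := hI (Set.Iic B) n
        rw [h3]
        linarith
    · have h3 := Set.indicator_of_mem (show n ∈ Set.Iic B from hB) (fun n : ℕ => 1 / (n : ℝ))
      have h4 := hI L₁ n
      have h5 := hI L₂ n
      rw [h3]
      linarith
  · rw [Set.indicator_of_notMem hp]
    have h3 := hI L₁ n
    have h4 := hI L₂ n
    have h5 := hI (Set.Iic B) n
    linarith

/-- a real number with `r ^ e = p ^ m` which is an `ℓ`-th power of a number of the same kind for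
infinitely many `ℓ` is `1` -/
theorem eqb_one (p : ℕ) [hp : Fact p.Prime] (e : ℕ) (he : 0 < e) (r : ℝ) (hr : 0 < r) (m : ℤ)
    (hm : r ^ e = (p : ℝ) ^ m)
    (h : ∀ B : ℕ, ∃ ℓ : ℕ, B < ℓ ∧ ∃ s : ℝ, r = s ^ ℓ ∧ ∃ j : ℤ, s ^ e = (p : ℝ) ^ j) : r = 1 := by
  obtain ⟨ℓ, hB, s, hs, j, hj⟩ := h m.natAbs
  have hp1 : (1 : ℝ) < p := by exact_mod_cast hp.out.one_lt
  have h1 : (p : ℝ) ^ m = (p : ℝ) ^ (j * (ℓ : ℤ)) := by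
    rw [← hm, hs, zpow_mul, ← hj, zpow_natCast, ← pow_mul, ← pow_mul, mul_comm]
  have h2 : m = j * (ℓ : ℤ) := zpow_right_injective₀ (by linarith) (ne_of_gt hp1) h1
  have h3 : m = 0 := by
    refine Int.eq_zero_of_dvd_of_natAbs_lt_natAbs (d := (ℓ : ℤ)) ⟨j, by rw [h2, mul_comm]⟩ ?_
    rw [Int.natAbs_natCast]
    exact hB
  rw [h3, zpow_zero] at hm
  exact (pow_eq_one_iff_of_nonneg hr.le he.ne').1 hm

/-- approximation by elements of `k` different from the given one -/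
theorem eqb_near {k : Type} [Field k] {p : ℕ} [hp : Fact p.Prime] (σ : k →+* ℂ_[p])
    (E₀ : IntermediateField ℚ_[p] ℂ_[p])
    (hd : ∀ z ∈ E₀, ∀ δ : ℝ, 0 < δ → ∃ a : k, ‖σ a - z‖ < δ) (z : ℂ_[p]) (hz : z ∈ E₀)
    (δ : ℝ) (hδ : 0 < δ) : ∃ a : k, σ a ≠ z ∧ ‖σ a - z‖ < δ := by
  have hp1 : (1 : ℝ) < p := by exact_mod_cast hp.out.one_lt
  obtain ⟨n, hn⟩ := exists_pow_lt_of_lt_one hδ (inv_lt_one_of_one_lt₀ hp1)
  have hu : ‖algebraMap ℚ_[p] ℂ_[p] ((p : ℚ_[p]) ^ n)‖ = (p : ℝ)⁻¹ ^ n := by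
    have h2 := PadicComplex.norm_extends' p ((p : ℚ_[p]) ^ n)
    rw [norm_pow, Padic.norm_p] at h2
    exact h2
  have hmem : algebraMap ℚ_[p] ℂ_[p] ((p : ℚ_[p]) ^ n) ∈ E₀ := E₀.algebraMap_mem _
  generalize algebraMap ℚ_[p] ℂ_[p] ((p : ℚ_[p]) ^ n) = u at hu hmem
  have hu0 : 0 < ‖u‖ := by rw [hu]; positivity
  obtain ⟨a, ha⟩ := hd (z + u) (add_mem hz hmem) ‖u‖ hu0
  refine ⟨a, ?_, ?_⟩
  · intro h
    rw [h] at ha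
    have : z - (z + u) = -u := by ring
    rw [this, norm_neg] at ha
    exact lt_irrefl _ ha
  · have h1 : σ a - z = (σ a - (z + u)) + u := by ring
    rw [h1]
    refine lt_of_le_of_lt (PadicComplex.isNonarchimedean p _ _) ?_
    refine max_lt (lt_trans ha ?_) ?_ <;> rw [hu] <;> exact hn

section

variable {k Ω : Type} [Field k] [NumberField k] [Field Ω] [Algebra k Ω] [IsAlgClosed Ω]

/-- elements with equal classes for infinitely many `ℓ` have values of equal absolute value -/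
theorem eqb_norm (hEFIN : ST_EFIN) (hPL : Pool.Agent.Helper22.TW.ST_PL) {D D' : Sec k Ω} {p : ℕ}
    [hp : Fact p.Prime] {σ : k →+* ℂ_[p]} (P : Place D p σ) (P' : Place D' p σ)
    (E₀ : IntermediateField ℚ_[p] ℂ_[p]) (hfd : FiniteDimensional ℚ_[p] E₀) (hσ : ∀ x, σ x ∈ E₀)
    (u : P.C) (u' : P'.C) (hu : P.φ u ≠ 0) (hu' : P'.φ u' ≠ 0)
    (h : ∀ B : ℕ, ∃ ℓ : ℕ, B < ℓ ∧ SL D D' ℓ (u : LL D) (u' : LL D')) :
    ‖P.φ u‖ = ‖P'.φ u'‖ := by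
  obtain ⟨e, N, he, _, hE⟩ := hEFIN p E₀ hfd
  obtain ⟨hP1, hP2⟩ := hPL k Ω D p σ E₀ hfd hσ P
  obtain ⟨hP1', hP2'⟩ := hPL k Ω D' p σ E₀ hfd hσ P'
  have hn : 0 < ‖P.φ u‖ := norm_pos_iff.2 hu
  have hn' : 0 < ‖P'.φ u'‖ := norm_pos_iff.2 hu'
  obtain ⟨⟨m, hm⟩, _⟩ := hE (P.φ u / P'.φ u') (div_mem (hP1 u) (hP1' u')) (div_ne_zero hu hu')
  rw [norm_div] at hm
  have key : ‖P.φ u‖ / ‖P'.φ u'‖ = 1 := by
    refine eqb_one p e he _ (by positivity) m hm ?_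
    intro B
    obtain ⟨ℓ, hB, a, g, g', hg, hg'⟩ := h B
    have hℓ : 0 < ℓ := by omega
    obtain ⟨w, hw, hw0, hw1⟩ := hP2 u hu ℓ hℓ a g hg
    obtain ⟨w', hw', hw0', hw1'⟩ := hP2' u' hu' ℓ hℓ a g' hg'
    have hwn : ‖w‖ ≠ 0 := norm_ne_zero_iff.2 hw0
    obtain ⟨⟨j, hj⟩, _⟩ := hE (w' / w) (div_mem hw' hw) (div_ne_zero hw0' hw0)
    refine ⟨ℓ, hB, ‖w' / w‖, ?_, j, hj⟩
    have h1 : ‖P.φ u‖ * ‖w‖ ^ ℓ = ‖P'.φ u'‖ * ‖w'‖ ^ ℓ := by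
      rw [← norm_pow, ← norm_pow, ← norm_mul, ← norm_mul, ← hw1, ← hw1']
    rw [norm_div, div_pow, div_eq_div_iff hn'.ne' (pow_ne_zero _ hwn), h1]
    ring
  rwa [div_eq_one_iff_eq hn'.ne'] at key

omit [NumberField k] [IsAlgClosed Ω] in
theorem eqb_sub {D : Sec k Ω} {p : ℕ} [Fact p.Prime] {σ : k →+* ℂ_[p]} (P : Place D p σ)
    (x : LL D) (hx : x ∈ P.C) (c : k) :
    ∃ h : x - algebraMap k (LL D) c ∈ P.C, P.φ ⟨_, h⟩ = P.φ ⟨x, hx⟩ - σ c := by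
  obtain ⟨h, h'⟩ := P.base c
  refine ⟨sub_mem hx h, ?_⟩
  rw [← h', ← map_sub]
  rfl

omit [NumberField k] [IsAlgClosed Ω] in
/-- the inverse of an element with nonzero value -/
theorem eqb_inv {D : Sec k Ω} {p : ℕ} [Fact p.Prime] {σ : k →+* ℂ_[p]} (P : Place D p σ)
    (x : LL D) (hx : x ∈ P.C) (h0 : P.φ ⟨x, hx⟩ ≠ 0) :
    ∃ h : x⁻¹ ∈ P.C, P.φ ⟨x⁻¹, h⟩ = (P.φ ⟨x, hx⟩)⁻¹ := by
  have h1 := (P.ker ⟨x, hx⟩).not.1 h0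
  push Not at h1
  obtain ⟨hx0, hx1⟩ := h1
  refine ⟨hx1, ?_⟩
  refine eq_inv_of_mul_eq_one_left ?_
  rw [← map_mul]
  have : (⟨x⁻¹, hx1⟩ * ⟨x, hx⟩ : P.C) = 1 := by
    refine Subtype.ext ?_
    show x⁻¹ * x = 1
    exact inv_mul_cancel₀ hx0
  rw [this, map_one]

/-- the hypothesis in a convenient form -/
def EqbH (D D' : Sec k Ω) (x : LL D) (y : LL D') : Prop :=
  ∀ (c₁ c₂ : k) (B : ℕ), ∃ ℓ : ℕ, B < ℓ ∧
    SL D D' ℓ (x - algebraMap k (LL D) c₁) (y - algebraMap k (LL D') c₁) ∧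
    SL D D' ℓ (x - algebraMap k (LL D) c₂) (y - algebraMap k (LL D') c₂)

omit [NumberField k] [IsAlgClosed Ω] in
theorem eqb_sl_symm {D D' : Sec k Ω} {ℓ : ℕ} {x : LL D} {y : LL D'} (h : SL D D' ℓ x y) :
    SL D' D ℓ y x := by
  obtain ⟨a, g, g', h1, h2⟩ := h
  exact ⟨a, g', g, h2, h1⟩

omit [NumberField k] [IsAlgClosed Ω] in
theorem eqb_sl_div {D D' : Sec k Ω} {ℓ : ℕ} {x₁ x₂ : LL D} {y₁ y₂ : LL D'}
    (h₁ : SL D D' ℓ x₁ y₁) (h₂ : SL D D' ℓ x₂ y₂) : SL D D' ℓ (x₁ * x₂⁻¹) (y₁ * y₂⁻¹) := by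
  obtain ⟨a, g, g', h1, h2⟩ := h₁
  obtain ⟨b, f, f', h3, h4⟩ := h₂
  refine ⟨a * b⁻¹, g * f⁻¹, g' * f'⁻¹, ?_, ?_⟩
  · rw [h1, h3, map_mul, map_inv₀, mul_inv, mul_pow, inv_pow]
    ring
  · rw [h2, h4, map_mul, map_inv₀, mul_inv, mul_pow, inv_pow]
    ring

omit [NumberField k] [IsAlgClosed Ω] in
theorem eqbH_symm {D D' : Sec k Ω} {x : LL D} {y : LL D'} (h : EqbH D D' x y) :
    EqbH D' D y x := by
  intro c₁ c₂ B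
  obtain ⟨ℓ, hB, h1, h2⟩ := h c₁ c₂ B
  exact ⟨ℓ, hB, eqb_sl_symm h1, eqb_sl_symm h2⟩

/-- both values finite -/
theorem eqb_fin (hEFIN : ST_EFIN) (hPL : Pool.Agent.Helper22.TW.ST_PL) {D D' : Sec k Ω}
    {x : LL D} {y : LL D'} (hH : EqbH D D' x y) {p : ℕ}
    [hp : Fact p.Prime] {σ : k →+* ℂ_[p]} (P : Place D p σ) (P' : Place D' p σ)
    (E₀ : IntermediateField ℚ_[p] ℂ_[p]) (hfd : FiniteDimensional ℚ_[p] E₀) (hσ : ∀ x, σ x ∈ E₀)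
    (hd : ∀ z ∈ E₀, ∀ δ : ℝ, 0 < δ → ∃ a : k, ‖σ a - z‖ < δ)
    (hx : x ∈ P.C) (hy : y ∈ P'.C) : P.φ ⟨x, hx⟩ = P'.φ ⟨y, hy⟩ := by
  by_contra hne
  have hpos : 0 < ‖P.φ ⟨x, hx⟩ - P'.φ ⟨y, hy⟩‖ := norm_pos_iff.2 (sub_ne_zero.2 hne)
  obtain ⟨c, hc, hc'⟩ := eqb_near σ E₀ hd (P.φ ⟨x, hx⟩)
    ((hPL k Ω D p σ E₀ hfd hσ P).1 ⟨x, hx⟩) _ hpos
  obtain ⟨h1, h1'⟩ := eqb_sub P x hx c
  obtain ⟨h2, h2'⟩ := eqb_sub P' y hy c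
  have hc2 : ‖P'.φ ⟨y, hy⟩ - σ c‖ = ‖P.φ ⟨x, hx⟩ - P'.φ ⟨y, hy⟩‖ := by
    have e1 : P'.φ ⟨y, hy⟩ - σ c = (P'.φ ⟨y, hy⟩ - P.φ ⟨x, hx⟩) + (P.φ ⟨x, hx⟩ - σ c) := by ring
    rw [e1, norm_sub_rev (P.φ ⟨x, hx⟩) (P'.φ ⟨y, hy⟩)]
    rw [norm_sub_rev (P.φ ⟨x, hx⟩) (P'.φ ⟨y, hy⟩), norm_sub_rev (σ c)] at hc'
    have h3 := IsUltrametricDist.norm_add_eq_max_of_norm_ne_norm (ne_of_gt hc')
    rw [h3]
    exact max_eq_left hc'.le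
  have hx0 : P.φ ⟨_, h1⟩ ≠ 0 := by
    rw [h1']
    exact sub_ne_zero.2 (Ne.symm hc)
  have hy0 : P'.φ ⟨_, h2⟩ ≠ 0 := by
    rw [h2']
    refine norm_ne_zero_iff.1 ?_
    rw [hc2]
    exact hpos.ne'
  have h3 := eqb_norm hEFIN hPL P P' E₀ hfd hσ ⟨_, h1⟩ ⟨_, h2⟩ hx0 hy0 (by
    intro B
    obtain ⟨ℓ, hB, h, _⟩ := hH c c B
    exact ⟨ℓ, hB, h⟩)
  rw [h1', h2', hc2] at h3
  rw [norm_sub_rev (σ c), h3] at hc'
  exact lt_irrefl _ hc'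

/-- an infinite value on one side gives an infinite value on the other side -/
theorem eqb_inf (hEFIN : ST_EFIN) (hPL : Pool.Agent.Helper22.TW.ST_PL) {D D' : Sec k Ω}
    {x : LL D} {y : LL D'} (hH : EqbH D D' x y) {p : ℕ}
    [hp : Fact p.Prime] {σ : k →+* ℂ_[p]} (P : Place D p σ) (P' : Place D' p σ)
    (E₀ : IntermediateField ℚ_[p] ℂ_[p]) (hfd : FiniteDimensional ℚ_[p] E₀) (hσ : ∀ x, σ x ∈ E₀)
    (hd : ∀ z ∈ E₀, ∀ δ : ℝ, 0 < δ → ∃ a : k, ‖σ a - z‖ < δ)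
    (hy : y ∈ P'.C) : x ∈ P.C := by
  by_contra hx
  have hYE := (hPL k Ω D' p σ E₀ hfd hσ P').1 ⟨y, hy⟩
  obtain ⟨c₂, hc2, _⟩ := eqb_near σ E₀ hd (P'.φ ⟨y, hy⟩) hYE 1 one_pos
  have hpos : 0 < ‖P'.φ ⟨y, hy⟩ - σ c₂‖ := norm_pos_iff.2 (sub_ne_zero.2 (Ne.symm hc2))
  obtain ⟨c₁, hc1, hc1'⟩ := eqb_near σ E₀ hd (P'.φ ⟨y, hy⟩) hYE _ hpos
  -- the side of `y`
  obtain ⟨h1, h1'⟩ := eqb_sub P' y hy c₁
  obtain ⟨h2, h2'⟩ := eqb_sub P' y hy c₂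
  have h20 : P'.φ ⟨_, h2⟩ ≠ 0 := by
    rw [h2']
    exact norm_pos_iff.1 hpos
  obtain ⟨h3, h3'⟩ := eqb_inv P' _ h2 h20
  have hu' : (y - algebraMap k (LL D') c₁) * (y - algebraMap k (LL D') c₂)⁻¹ ∈ P'.C :=
    mul_mem h1 h3
  have hu'v : P'.φ ⟨_, hu'⟩ = (P'.φ ⟨y, hy⟩ - σ c₁) * (P'.φ ⟨y, hy⟩ - σ c₂)⁻¹ := by
    rw [← h2', ← h3', ← h1', ← map_mul]
    rfl
  -- the side of `x`
  obtain ⟨hb, hb'⟩ := P.base (c₂ - c₁)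
  have hx2 : x - algebraMap k (LL D) c₂ ∉ P.C := by
    intro h
    obtain ⟨hb2, _⟩ := P.base c₂
    apply hx
    have := add_mem h hb2
    rwa [sub_add_cancel] at this
  have hx20 : x - algebraMap k (LL D) c₂ ≠ 0 := by
    intro h
    rw [h] at hx2
    exact hx2 (zero_mem _)
  have hx3 : (x - algebraMap k (LL D) c₂)⁻¹ ∈ P.C :=
    (P.C.mem_or_inv_mem _).resolve_left hx2
  have hx30 : P.φ ⟨_, hx3⟩ = 0 := by
    rw [P.ker]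
    right
    show ((x - algebraMap k (LL D) c₂)⁻¹)⁻¹ ∉ P.C
    rw [inv_inv]
    exact hx2
  have hueq : (x - algebraMap k (LL D) c₁) * (x - algebraMap k (LL D) c₂)⁻¹ =
      1 + algebraMap k (LL D) (c₂ - c₁) * (x - algebraMap k (LL D) c₂)⁻¹ := by
    rw [map_sub]
    field_simp
    ring
  have hum : 1 + algebraMap k (LL D) (c₂ - c₁) * (x - algebraMap k (LL D) c₂)⁻¹ ∈ P.C :=
    add_mem (one_mem _) (mul_mem hb hx3)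
  have huv : P.φ ⟨_, hum⟩ = 1 := by
    have e1 : (⟨_, hum⟩ : P.C) = 1 + ⟨_, hb⟩ * ⟨_, hx3⟩ := rfl
    rw [e1, map_add, map_mul, map_one, hx30, mul_zero, add_zero]
  have hne1 : P'.φ ⟨y, hy⟩ - σ c₁ ≠ 0 := sub_ne_zero.2 (Ne.symm hc1)
  have hne2 : P'.φ ⟨y, hy⟩ - σ c₂ ≠ 0 := norm_pos_iff.1 hpos
  have h4 := eqb_norm hEFIN hPL P P' E₀ hfd hσ ⟨_, hum⟩ ⟨_, hu'⟩ (by rw [huv]; exact one_ne_zero)
    (by rw [hu'v]; exact mul_ne_zero hne1 (inv_ne_zero hne2)) (by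
    intro B
    obtain ⟨ℓ, hB, h, h'⟩ := hH c₁ c₂ B
    refine ⟨ℓ, hB, ?_⟩
    have h5 := eqb_sl_div h h'
    rw [hueq] at h5
    exact h5)
  rw [huv, hu'v, norm_one, norm_mul, norm_inv, eq_comm, mul_inv_eq_one₀ hpos.ne'] at h4
  rw [norm_sub_rev (σ c₁), h4] at hc1'
  exact lt_irrefl _ hc1'

end

theorem st_EQB (hCLO : ST_CLO) (hPL : Pool.Agent.Helper22.TW.ST_PL) (hEFIN : ST_EFIN) : ST_EQB := by
  intro k Ω _ _ _ _ _ D D' x y hxy p hp σ P P'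
  have hH : EqbH D D' x y := by
    intro c₁ c₂ B
    obtain ⟨L₁, hs1, h1⟩ := hxy c₁
    obtain ⟨L₂, hs2, h2⟩ := hxy c₂
    obtain ⟨ℓ, hB, hpr, hn1, hn2⟩ := eqb_primes L₁ L₂ hs1 hs2 B
    exact ⟨ℓ, hB, h1 ℓ hpr hn1, h2 ℓ hpr hn2⟩
  obtain ⟨E₀, hfd, hσ, hd⟩ := hCLO k p σ
  refine ⟨⟨?_, ?_⟩, ?_⟩
  · intro hx
    exact eqb_inf hEFIN hPL (eqbH_symm hH) P' P E₀ hfd hσ hd hx
  · intro hy
    exact eqb_inf hEFIN hPL hH P P' E₀ hfd hσ hd hy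
  · intro hx hy
    exact eqb_fin hEFIN hPL hH P P' E₀ hfd hσ hd hx hy

end Pool.Agent.Helper13.RG
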